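import Pool.Agent.N184.WM.Geo
import Pool.Agent.N184.WM.Defs

/-!
# The monodromy on the `E_2` term without hard Lefschetz for the generic fibre
-/

namespace Pool.Agent.N184.KL

universe u v

open Module Submodule Pool.Agent.Y143 Pool.Agent.X302.MW Pool.Agent.N184.WM

section linalg

variable {Ω : Type*} [Field Ω] {C : Type*} [AddCommGroup C] [Module Ω C]

/-- A Lefschetz complex, without the Lefschetz properties. -/
structure PreComplex (d : ℤ → Module.End Ω C) (G : ℤ → ℤ → Submodule Ω C) : Prop where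
  neg : ∀ i j, G (-i) j = G i j
  d_mem : ∀ i j x, x ∈ G i j → d i x ∈ G (i + 1) (j + 1)
  dd : ∀ i j x, x ∈ G i j → d (i + 1) (d i x) = 0
  out : ∀ i, 1 ≤ i → ∀ j x, x ∈ G i j → d (-i) x = 0 → d i x = 0
  incl : ∀ i, 1 ≤ i → ∀ j z, z ∈ G (i + 1) j → z ∈ G (i - 1) j
  dneg : ∀ i, d (-i - 1) = d (i - 1)

variable {d : ℤ → Module.End Ω C} {G : ℤ → ℤ → Submodule Ω C}

lemma PreComplex.bd_le (h : PreComplex d G) (i j : ℤ) : Bd d G i j ≤ Zc d G i j := by
  rintro _ ⟨x, hx, rfl⟩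
  refine ⟨LefComplex.mem_cast _ _ _ _ (by ring) (by ring) (h.d_mem _ _ _ hx), ?_⟩
  have := h.dd _ _ _ hx
  rw [SetLike.mem_coe, LinearMap.mem_ker]
  rwa [show i - 1 + 1 = i by ring] at this

lemma PreComplex.zc_neg_le (h : PreComplex d G) (i : ℤ) (hi : 1 ≤ i) (j : ℤ) :
    Zc d G (-i) j ≤ Zc d G i j := by
  rintro x ⟨h1, h2⟩
  rw [h.neg] at h1
  exact ⟨h1, h.out i hi j x h1 h2⟩

variable {ψ : C →ₗ[Ω] C →ₗ[Ω] Ω} {L : Module.End Ω C}

section fd

variable [FiniteDimensional Ω C]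

lemma annR_zc (h : LefDual ψ d L G G) (hG : PreComplex d G) (i j : ℤ) :
    annR ψ (Zc d G i j) (G (-i) (-j)) = Bd d G (-i) (-j) := by
  have h1 := h.perf (i + 1) (j + 1)
  have h2 : Perf ψ (G (i + 1) (j + 1)) (G (-i - 1) (-j - 1)) := by
    rwa [show -(i + 1) = -i - 1 by ring, show -(j + 1) = -j - 1 by ring] at h1
  exact annR_ker (h.perf i j) h2 (fun x hx => hG.d_mem _ _ _ hx)
    (fun y hy => LefComplex.mem_cast _ _ _ _ (by ring) (by ring) (hG.d_mem _ _ _ hy))
    (fun x hx y hy => h.adj_d _ _ _ _ hx hy)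

omit [FiniteDimensional Ω C] in
lemma annR_bd (h : LefDual ψ d L G G) (hG : PreComplex d G) (i j : ℤ) :
    annR ψ (Bd d G i j) (G (-i) (-j)) = Zc d G (-i) (-j) := by
  have h1 := h.perf (i - 1) (j - 1)
  refine annR_map h1 (fun y hy => ?_) (fun x hx y hy => ?_)
  · exact LefComplex.mem_cast _ _ _ _ (by ring) (by ring) (hG.d_mem _ _ _ hy)
  · have := h.adj_d (i - 1) (j - 1) x y hx (LefComplex.mem_cast _ _ _ _ (by ring) (by ring) hy)
    rwa [show -(i - 1) - 1 = -i by ring] at this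

/-- Injectivity in degree `j` gives surjectivity in degree `-j`. -/
lemma nSurj_of_nInj (h : LefDual ψ d L G G) (hG : PreComplex d G) (i j : ℤ)
    (hI : NInj d G i j) : NSurj d G i (-j) := by
  have hp := h.perf (-i) j
  rw [neg_neg] at hp
  -- the annihilators in `G i (-j)`
  have e1 : annR ψ (Bd d G (-i) j) (G i (-j)) = Zc d G i (-j) := by
    have := annR_bd h hG (-i) j
    rwa [neg_neg] at this
  have e2 : annR ψ (Zc d G (-i) j) (G i (-j)) = Bd d G i (-j) := by
    have := annR_zc h hG (-i) j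
    rwa [neg_neg] at this
  have e3 : annR ψ (Bd d G i j) (G i (-j)) = Zc d G (-i) (-j) := by
    have := annR_bd h hG i j
    rwa [hG.neg] at this
  set A := Zc d G (-i) j with hA
  set B := Bd d G i j with hB
  have hAG : A ≤ G (-i) j := inf_le_left
  have hBG : B ≤ G (-i) j := by
    rw [hG.neg]
    exact (hG.bd_le i j).trans inf_le_left
  -- `U = ann A + ann B` is the annihilator of `A ∩ B`
  set U := annR ψ A (G i (-j)) ⊔ annR ψ B (G i (-j)) with hU
  have hUG : U ≤ G i (-j) := sup_le (fun y hy => hy.1) (fun y hy => hy.1)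
  have h4 : annR ψ.flip U (G (-i) j) = A ⊓ B := by
    rw [hU, annR_sup, hp.annR_annR hAG, hp.annR_annR hBG]
  have h5 : U = annR ψ (A ⊓ B) (G i (-j)) := by
    have := hp.flip.annR_annR hUG
    rw [h4] at this
    exact this.symm
  intro y hy
  have h6 : y ∈ annR ψ (A ⊓ B) (G i (-j)) := by
    rw [← e1] at hy
    exact annR_mono hI hy
  rw [← h5, hU, e2, e3] at h6
  rwa [sup_comm] at h6

/-- Surjectivity in degree `j` gives injectivity in degree `-j`. -/
lemma nInj_of_nSurj (h : LefDual ψ d L G G) (hG : PreComplex d G) (i j : ℤ)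
    (hS : NSurj d G i j) : NInj d G i (-j) := by
  have hf := h.flip
  have e1 : annR ψ.flip (Zc d G i j) (G (-i) (-j)) = Bd d G (-i) (-j) := annR_zc hf hG i j
  have e2 : annR ψ.flip (Bd d G i j) (G (-i) (-j)) = Zc d G (-i) (-j) := annR_bd hf hG i j
  have e3 : annR ψ.flip (Zc d G (-i) j) (G i (-j)) = Bd d G i (-j) := by
    have := annR_zc hf hG (-i) j
    rwa [neg_neg] at this
  intro x hx
  rw [← e1]
  refine ⟨hx.1.1, fun y hy => ?_⟩
  obtain ⟨u, hu, v, hv, rfl⟩ := Submodule.mem_sup.1 (hS hy)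
  have hx1 : x ∈ annR ψ.flip (Bd d G i j) (G (-i) (-j)) := by rw [e2]; exact hx.1
  have hx2 : x ∈ annR ψ.flip (Zc d G (-i) j) (G i (-j)) := by rw [e3]; exact hx.2
  rw [map_add, LinearMap.add_apply, hx1.2 v hv, hx2.2 u hu, add_zero]

end fd

end linalg

variable {Ω : Type u} [Field Ω] [CharZero Ω] {Γ : Type} {n q : ℕ}

section special

variable (X : SpecialFibre.{u, v} Ω Γ n q)

theorem preComplex : PreComplex X.diff X.tot where
  neg i j := by
    unfold SpecialFibre.tot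
    have := X.E₁_neg i (n + j - i)
    rwa [show (n : ℤ) + j - i + 2 * i = n + j - -i by ring] at this
  d_mem i j x hx := X.mem_E₁_cast rfl (by ring) (X.diff_mem hx)
  dd i j x hx := X.diff_diff hx
  out i hi j x _ h := X.diff_out (w := 0) hi h
  incl i hi j z hz := X.mem_E₁_cast rfl (by ring) (X.E₁_incl hi hz)
  dneg i := X.diff_neg i

/-- Injectivity from the positivity on the strata. -/
lemma nInj_of_pos (a : ℕ) (j : ℤ)
    (hK : ∀ y ∈ X.gr a (n + j - ((a : ℤ) + 1)), X.gys a (X.res a y) = 0 →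
      (Pi.single (a + 1) (X.res a y) : X.C) ∈
        X.coboundaries (-((a : ℤ) + 1)) (n + j - ((a : ℤ) + 1) + 2 * ((a : ℤ) + 1))) :
    NInj X.diff X.tot ((a : ℤ) + 1) j := by
  rintro x ⟨hx1, hx2⟩
  set w : ℤ := n + j - ((a : ℤ) + 1) with hw
  obtain ⟨y, hy, hyx⟩ := hx2
  rw [show (a : ℤ) + 1 - 1 = a by ring] at hy hyx
  have hyE : y ∈ X.E₁ a w := X.mem_E₁_cast rfl (by rw [hw]; ring) hy
  have hx0 : X.diff (-((a : ℤ) + 1)) (X.diff a y) = 0 := by
    rw [hyx]
    exact hx1.2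
  obtain ⟨h1, y', hy', h2⟩ := reduce X a w hyE hx0
  have hya : y a ∈ X.gr a w := by
    have := (hyE a).1
    rwa [show w + (a : ℤ) - a = w by ring] at this
  have h3 := hK (y a) hya h1
  rw [X.bd_eq, show (n : ℤ) + j - -((a : ℤ) + 1) = w + 2 * ((a : ℤ) + 1) by
    rw [hw]; ring, ← hyx, h2]
  exact Submodule.add_mem _ ⟨y', hy', rfl⟩ h3

/-- Injectivity in the weights at most one. -/
lemma nInj_low (A : DivisorClasses X) (i j : ℤ) (hi : 1 ≤ i) (hw : (n : ℤ) + j - i ≤ 1) :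
    NInj X.diff X.tot i j := by
  obtain ⟨a, ha⟩ := Int.eq_ofNat_of_zero_le (show 0 ≤ i - 1 by omega)
  obtain rfl : i = (a : ℤ) + 1 := by omega
  apply nInj_of_pos X a j
  intro y hy hG
  have h0 : X.res a y = 0 := by
    rcases lt_or_ge ((n : ℤ) + j - ((a : ℤ) + 1)) 0 with hw' | hw'
    · rw [X.gr_eq_bot a _ (Or.inl hw'), Submodule.mem_bot] at hy
      rw [hy, map_zero]
    · obtain ⟨w, hw2⟩ := Int.eq_ofNat_of_zero_le hw'
      rw [hw2] at hy hw
      have : w < 2 := by omega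
      interval_cases w
      · exact crit0 A a (by simpa using hy) hG
      · exact crit1 A a (by simpa using hy) hG
  rw [h0, Pi.single_zero]
  exact Submodule.zero_mem _

end special

end Pool.Agent.N184.KL
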