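import Pool.Agent.N184.WM.Defs

/-!
# The outer range without hard Lefschetz for the generic fibre
-/

namespace Pool.Agent.N184.KL

universe u v

open Module Pool.Agent.Y143

variable {Ω : Type u} [Field Ω] [CharZero Ω] {Γ : Type} {n q : ℕ}

/-- The classes in `H^2(Y^(n-2))`, for `n ≥ 3`, are linear combinations of classes of divisors. -/
def AlgebraicTwo {X : SpecialFibre.{u, v} Ω Γ n q} (A : DivisorClasses X) : Prop :=
  ∀ a : ℕ, n = a + 3 → ∀ y ∈ X.gr a 2, y ∈ Submodule.span Ω (A.A1 a : Set (X.H a))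

/-- The number `e` is large for the degree `k`: either `e ≥ min (k, 2 n - k)`, or `k = n` and
`e ≥ n - 1`, or `k = n`, `e ≥ n - 2` and `AlgebraicTwo` holds. -/
def InRange {X : SpecialFibre.{u, v} Ω Γ n q} (A : DivisorClasses X) (k e : ℕ) : Prop :=
  k ≤ e ∨ 2 * n ≤ k + e ∨ (k = n ∧ n ≤ e + 1) ∨ (k = n ∧ n ≤ e + 2 ∧ AlgebraicTwo A)

end Pool.Agent.N184.KL
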