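import Pool.Agent.N184.KL.Low

/-!
# The outer part of the weight filtration is the outer part of the monodromy filtration
-/

namespace Pool.Agent.N184.KL

universe u v

open Module Submodule Pool.Agent.Y143 Pool.Agent.X302.MW Pool.Agent.N184.WM

section linalg

variable {Ω : Type*} [Field Ω] [CharZero Ω] {V : Type*} [AddCommGroup V] [Module Ω V]
  {N : Module.End Ω V} {W M : ℤ → Submodule Ω V} {f : ℕ}

/-- The large steps of the two filtrations agree. -/
lemma eq_pos (h : IsOuter N W f) (hM : IsMonodromyFiltration N M) (s : ℕ) (hs : f ≤ s) :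
    M s = W s := by
  apply le_antisymm
  · intro x hx
    have h1 := hM.on.pow_map (s + 1) _ x hx
    rw [show (s : ℤ) - 2 * ((s + 1 : ℕ) : ℤ) = -((s + 2 : ℕ) : ℤ) by push_cast; ring] at h1
    have h2 := h.mon_le hM (s + 2) (by omega) h1
    obtain ⟨z, hz, hz'⟩ := h.surj_exact (s + 2) (by omega) _ h2
    have h3 : (N ^ (s + 1)) (x - N z) = 0 := by
      rw [map_sub, ← Module.End.mul_apply (N ^ (s + 1)) N, ← pow_succ, hz', sub_self]
    have h4 := h.ker_le (s + 1) (by omega) h3
    rw [show ((s + 1 : ℕ) : ℤ) - 1 = s by push_cast; ring] at h4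
    have h5 := h.map _ _ hz
    rw [show ((s + 2 : ℕ) : ℤ) - 2 = s by push_cast; ring] at h5
    have := add_mem h4 h5
    rwa [sub_add_cancel] at this
  · have := h.le_mon hM (s + 1) (by omega)
    rwa [show ((s + 1 : ℕ) : ℤ) - 1 = s by push_cast; ring] at this

/-- The small steps of the two filtrations agree. -/
lemma eq_neg (h : IsOuter N W f) (hM : IsMonodromyFiltration N M) (s : ℕ) (hs : f + 1 ≤ s) :
    M (-s) = W (-s) := by
  apply le_antisymm (h.mon_le hM s (by omega))
  intro y hy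
  obtain ⟨x, hx, rfl⟩ := h.surj_exact s hs y hy
  rw [← eq_pos h hM s (by omega)] at hx
  have := hM.on.pow_map s _ x hx
  rwa [show (s : ℤ) - 2 * (s : ℤ) = -s by ring] at this

lemma eq_outer (h : IsOuter N W f) (hM : IsMonodromyFiltration N M) (s : ℤ)
    (hs : (f : ℤ) ≤ s ∨ s ≤ -(f : ℤ) - 1) : M s = W s := by
  rcases hs with hs | hs
  · obtain ⟨t, rfl⟩ := Int.eq_ofNat_of_zero_le (show 0 ≤ s by omega)
    exact eq_pos h hM t (by omega)
  · obtain ⟨t, ht⟩ : ∃ t : ℕ, s = -(t : ℤ) := ⟨s.natAbs, by omega⟩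
    subst ht
    exact eq_neg h hM t (by omega)

end linalg

variable {Ω : Type u} [Field Ω] [CharZero Ω] {Γ : Type} {n q : ℕ}

/-- `M` and the weight filtration agree in the outer range. -/
theorem weight_eq_monodromy (X : SemistableModel.{u, v} Ω Γ n q)
    (A : DivisorClasses X.toSpecialFibre) (k f : ℕ) (h : InRange A k (f + 1))
    (M : ℤ → Submodule Ω (X.V k)) (hM : IsMonodromyFiltration (X.N k) M) (s : ℤ)
    (hs : (f : ℤ) ≤ s ∨ s ≤ -(f : ℤ) - 1) : M s = X.W k (k + s) :=
  eq_outer (isOuter_KL X A k f h) hM s hs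

/-- Purity in the outer range. -/
theorem pure_outer (X : SemistableModel.{u, v} Ω Γ n q)
    (A : DivisorClasses X.toSpecialFibre) (k f : ℕ) (h : InRange A k (f + 1))
    (hN : IsTwisted q (X.actV k X.frob) (X.N k)) (s : ℤ) (hs : (f : ℤ) ≤ |s|) :
    IsPureAt q k (X.actV k X.frob) (X.N k) s := by
  intro M hM
  have hfin := finite_V X k
  refine outer_weights (isOuter_KL X A k f h) hM X.q_ne (k := k)
    (fun a x hx => act_W X k _ _ x hx) hN ?_ hs
  intro a α x hx hx' hα
  exact weil_W X k _ α x hx (by rwa [show (k : ℤ) + a - 1 = k + (a - 1) by ring])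
    (by rwa [show (k : ℤ) + a - 1 = k + (a - 1) by ring])

end Pool.Agent.N184.KL
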