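import Pool.Agent.N184.KL.Core
import Pool.Agent.N184.KL.Defs

/-!
# Low weights without hard Lefschetz for the generic fibre
-/

namespace Pool.Agent.N184.KL

universe u v

open Module Submodule Pool.Agent.Y143 Pool.Agent.X302.MW Pool.Agent.N184.WM

variable {Ω : Type u} [Field Ω] [CharZero Ω] {Γ : Type} {n q : ℕ}

section special

variable (X : SpecialFibre.{u, v} Ω Γ n q)

lemma single_mem_cobound' (a : ℕ) {v : X.H (a + 2)} (hv : v ∈ X.gr (a + 2) 0)
    (hR : X.res (a + 2) v = 0) :
    (Pi.single (a + 1) (X.gys (a + 1) v) : X.C) ∈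
      X.coboundaries (-((a : ℤ) + 1)) (2 + 2 * ((a : ℤ) + 1)) := by
  classical
  refine ⟨Pi.single (a + 2) v, ?_, ?_⟩
  · apply X.single_mem
    · refine ⟨?_, ?_⟩
      · rw [show -((a : ℤ) + 1) - 1 = -((a : ℤ) + 2) by ring, abs_neg,
          abs_of_nonneg (by positivity)]
        push_cast
        rfl
      · refine ⟨(a : ℤ) + 2, by push_cast; ring⟩
    · rwa [show 2 + 2 * ((a : ℤ) + 1) + (-((a : ℤ) + 1) - 1) - ((a + 2 : ℕ) : ℤ) = 0 by
        push_cast; ring]
  · funext b
    rw [X.diff_apply, show -((a : ℤ) + 1) - 1 + 1 = -((a : ℤ) + 1) by ring, X.cut_neg]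
    by_cases hc : InColumn ((a : ℤ) + 1) b
    · rw [X.cut_of hc, Pi.add_apply, X.gysC_apply]
      have hab : a + 1 ≤ b := by
        have := hc.1
        rw [abs_of_nonneg (by positivity)] at this
        exact_mod_cast this
      obtain ⟨b', rfl⟩ : ∃ b', b = b' + 1 := ⟨b - 1, by omega⟩
      rw [X.resC_succ]
      by_cases hb : b' = a
      · subst hb
        rw [Pi.single_eq_of_ne (by omega), map_zero, zero_add, Pi.single_eq_same,
          Pi.single_eq_same]
      · by_cases hb2 : b' = a + 2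
        · subst hb2
          rw [Pi.single_eq_same, hR, zero_add, Pi.single_eq_of_ne (by omega), map_zero,
            Pi.single_eq_of_ne (by omega)]
        · rw [Pi.single_eq_of_ne hb2, map_zero, zero_add, Pi.single_eq_of_ne (by omega), map_zero,
            Pi.single_eq_of_ne (by omega)]
    · rw [X.cut_of_not hc, Pi.single_eq_of_ne]
      rintro rfl
      exact hc (inCol_succ_self a)

/-- Injectivity in weight two in the middle degree, if the classes in `H^2(Y^(n-2))` are algebraic. -/
lemma nInj_two (A : DivisorClasses X) (a : ℕ) (hn : n = a + 3)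
    (hA : ∀ y ∈ X.gr a 2, y ∈ Submodule.span Ω (A.A1 a : Set (X.H a))) :
    NInj X.diff X.tot ((a : ℤ) + 1) 0 := by
  have hw : (n : ℤ) + 0 - ((a : ℤ) + 1) = 2 := by omega
  apply nInj_of_pos X a 0
  intro y hy hG
  rw [hw] at hy ⊢
  obtain ⟨v, hv, hR, hz⟩ := crit2 A a (by omega) (hA y hy) hG
  rw [hz]
  exact single_mem_cobound' X a hv hR

/-- An element of `E_1^(i, 0)` is concentrated in one component. -/
lemma E₁_zero (a : ℕ) {x : X.C} (hx : x ∈ X.E₁ ((a : ℤ) + 1) 0) :
    x (a + 1) ∈ X.gr (a + 1) 0 ∧ x = Pi.single (a + 1) (x (a + 1)) := by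
  classical
  constructor
  · have := (hx (a + 1)).1
    rwa [show (0 : ℤ) + ((a : ℤ) + 1) - ((a + 1 : ℕ) : ℤ) = 0 by push_cast; ring] at this
  · funext b
    by_cases hb : b = a + 1
    · subst hb
      rw [Pi.single_eq_same]
    · rw [Pi.single_eq_of_ne hb]
      by_cases hc : InColumn ((a : ℤ) + 1) b
      · have h1 := hc.1
        rw [abs_of_nonneg (by positivity)] at h1
        have h2 := (hx b).1
        rw [X.gr_eq_bot b _ (Or.inl (by omega)), Submodule.mem_bot] at h2
        exact h2
      · exact (hx b).2 hc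

/-- Surjectivity in weight zero: harmonic representatives. -/
lemma nSurj_zero (A : DivisorClasses X) (i j : ℤ) (hi : 1 ≤ i) (hw : (n : ℤ) + j - i ≤ 0) :
    NSurj X.diff X.tot i j := by
  classical
  obtain ⟨a, ha⟩ := Int.eq_ofNat_of_zero_le (show 0 ≤ i - 1 by omega)
  obtain rfl : i = (a : ℤ) + 1 := by omega
  intro x hx
  rw [X.zc_eq] at hx
  rcases hw.lt_or_eq with hw | hw
  · -- negative weight
    have h1 : x = 0 := by
      funext b
      by_cases hc : InColumn ((a : ℤ) + 1) b
      · have h2 := (hx.1 b).1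
        have h3 := hc.1
        rw [abs_of_nonneg (by positivity)] at h3
        rw [X.gr_eq_bot b _ (Or.inl (by omega)), Submodule.mem_bot] at h2
        exact h2
      · exact (hx.1 b).2 hc
    rw [h1]
    exact zero_mem _
  rw [hw] at hx
  obtain ⟨hz, hxz⟩ := E₁_zero X a hx.1
  set z := x (a + 1) with hzdef
  have hcol : InColumn ((a : ℤ) + 1 + 1) (a + 2) := by
    refine ⟨?_, ⟨0, by push_cast; ring⟩⟩
    rw [abs_of_nonneg (by positivity)]
    push_cast
    omega
  -- `z` is killed by the restriction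
  have hR : X.res (a + 1) z = 0 := by
    have h1 : X.diff ((a : ℤ) + 1) x = 0 := hx.2
    have h2 := congrFun h1 (a + 2)
    rw [hxz, X.diff_apply, X.cut_of hcol, Pi.add_apply, X.resC_succ, Pi.single_eq_same,
      X.gysC_apply, Pi.single_eq_of_ne (by omega), map_zero, add_zero] at h2
    exact h2
  -- the orthogonal decomposition
  let Q : X.H (a + 1) →ₗ[Ω] X.H (a + 1) →ₗ[Ω] Ω :=
    (X.pair (a + 1)).compl₂ (X.lef (a + 1) ^ (n - (a + 1)))
  have hQ : ∀ x y, Q x y = X.pair (a + 1) x ((X.lef (a + 1) ^ (n - (a + 1))) y) := fun x y => rfl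
  let F : Submodule Ω (X.H (a + 1)) := (X.gr a 0).map (X.res a)
  have hF : ∀ x ∈ F, (∀ y ∈ F, Q x y = 0) → x = 0 := by
    rintro _ ⟨x, hx, rfl⟩ h
    exact image0 A a hx fun u hu => h _ ⟨u, hu, rfl⟩
  obtain ⟨_, ⟨u, hu, rfl⟩, hf⟩ := exists_repr Q F hF (Q z)
  set h := z - X.res a u with hh
  have hh0 : h ∈ X.gr (a + 1) 0 := Submodule.sub_mem _ hz (X.res_gr a 0 _ hu)
  have hRh : X.res (a + 1) h = 0 := by rw [hh, map_sub, hR, X.res_res, sub_zero]
  have hg : X.gys a h = 0 := by
    apply gys_harm A a hh0 hRh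
    intro t ht
    have h1 := hf _ (show X.res a t ∈ F from ⟨t, ht, rfl⟩)
    rw [hQ, hQ] at h1
    rw [hh, map_sub, LinearMap.sub_apply, h1, sub_self]
  -- the two parts
  refine Submodule.mem_sup.2 ⟨Pi.single (a + 1) h, ?_, x - Pi.single (a + 1) h, ?_, by abel⟩
  · rw [X.zc_eq, show (n : ℤ) + j - -((a : ℤ) + 1) = 2 * ((a : ℤ) + 1) by omega]
    refine ⟨?_, ?_⟩
    · apply X.single_mem
      · refine ⟨?_, ⟨(a : ℤ) + 1, by push_cast; ring⟩⟩
        rw [abs_neg, abs_of_nonneg (by positivity)]
        push_cast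
        rfl
      · rwa [show 2 * ((a : ℤ) + 1) + -((a : ℤ) + 1) - ((a + 1 : ℕ) : ℤ) = 0 by push_cast; ring]
    · rw [SetLike.mem_coe, LinearMap.mem_ker]
      funext b
      rw [X.diff_apply, show -((a : ℤ) + 1) + 1 = -(a : ℤ) by ring, X.cut_neg]
      by_cases hc : InColumn (a : ℤ) b
      · rw [X.cut_of hc, Pi.add_apply, X.gysC_apply]
        have hpar := hc.2
        have hr : X.resC (Pi.single (a + 1) h) b = 0 := by
          cases b with
          | zero => exact X.resC_zero _
          | succ b =>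
            rw [X.resC_succ]
            by_cases hb : b = a + 1
            · subst hb
              rw [Pi.single_eq_same, hRh]
            · rw [Pi.single_eq_of_ne hb, map_zero]
        rw [hr, zero_add]
        by_cases hb : b = a
        · subst hb
          rw [Pi.single_eq_same, hg]
          rfl
        · rw [Pi.single_eq_of_ne (by omega), map_zero]
          rfl
      · rw [X.cut_of_not hc]
        rfl
  · rw [X.bd_eq, hw]
    refine ⟨Pi.single a u, ?_, ?_⟩
    · rw [show (a : ℤ) + 1 - 1 = a by ring]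
      apply X.single_mem
      · refine ⟨?_, ⟨0, by ring⟩⟩
        rw [Nat.abs_cast]
      · rwa [show (0 : ℤ) + a - a = 0 by ring]
    · have e : x - (Pi.single (a + 1) h : X.C) = Pi.single (a + 1) (X.res a u) := by
        conv_lhs => rw [hxz]
        rw [← Pi.single_sub]
        congr 1
        rw [hh]
        abel
      rw [e]
      funext b
      rw [X.diff_apply, show (a : ℤ) + 1 - 1 + 1 = (a : ℤ) + 1 by ring]
      by_cases hc : InColumn ((a : ℤ) + 1) b
      · rw [X.cut_of hc, Pi.add_apply, X.gysC_apply]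
        have h1 := hc.1
        rw [abs_of_nonneg (by positivity)] at h1
        have hab : a + 1 ≤ b := by exact_mod_cast h1
        obtain ⟨b', rfl⟩ : ∃ b', b = b' + 1 := ⟨b - 1, by omega⟩
        rw [X.resC_succ, Pi.single_eq_of_ne (by omega : b' + 1 + 1 ≠ a), map_zero, add_zero]
        by_cases hb : b' = a
        · subst hb
          rw [Pi.single_eq_same, Pi.single_eq_same]
        · rw [Pi.single_eq_of_ne hb, map_zero, Pi.single_eq_of_ne (by omega)]
      · rw [X.cut_of_not hc, Pi.single_eq_of_ne]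
        rintro rfl
        exact hc (inCol_succ_self a)

end special

section generic

variable (X : SemistableModel.{u, v} Ω Γ n q)

theorem good_of_range (A : DivisorClasses X.toSpecialFibre) (k e : ℕ) (he : 1 ≤ e)
    (h : InRange A k e) :
    NInj X.diff X.tot e ((k : ℤ) - n) ∧ NSurj X.diff X.tot e ((k : ℤ) - n) := by
  have hD := X.lefDual
  have hP := preComplex X.toSpecialFibre
  have he' : (1 : ℤ) ≤ e := by exact_mod_cast he
  rcases h with h | h | ⟨h1, h2⟩ | ⟨h1, h2, h3⟩
  · exact ⟨nInj_low X.toSpecialFibre A e _ he' (by omega),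
      nSurj_zero X.toSpecialFibre A e _ he' (by omega)⟩
  · have h1 := nInj_low X.toSpecialFibre A e ((n : ℤ) - k) he' (by omega)
    have h2 := nSurj_zero X.toSpecialFibre A e ((n : ℤ) - k) he' (by omega)
    have h3 := nSurj_of_nInj hD hP _ _ h1
    have h4 := nInj_of_nSurj hD hP _ _ h2
    rw [show -((n : ℤ) - k) = k - n by ring] at h3 h4
    exact ⟨h4, h3⟩
  · subst h1
    have h4 := nInj_low X.toSpecialFibre A e 0 he' (by omega)
    have h5 := nSurj_of_nInj hD hP _ _ h4
    rw [neg_zero] at h5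
    rw [sub_self]
    exact ⟨h4, h5⟩
  · subst h1
    rcases Nat.lt_or_ge k (e + 2) with h4 | h4
    · have h4 := nInj_low X.toSpecialFibre A e 0 he' (by omega)
      have h5 := nSurj_of_nInj hD hP _ _ h4
      rw [neg_zero] at h5
      rw [sub_self]
      exact ⟨h4, h5⟩
    · obtain ⟨a, rfl⟩ : ∃ a, e = a + 1 := ⟨e - 1, by omega⟩
      have h5 := nInj_two X.toSpecialFibre A a (by omega) (h3 a (by omega))
      have h6 := nSurj_of_nInj hD hP _ _ h5
      rw [neg_zero] at h6
      rw [sub_self]
      push_cast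
      exact ⟨h5, h6⟩

/-- Bijectivity of `N ^ e` on the graded pieces of `H^k` for all `e ≥ f + 1`. -/
theorem isOuter_KL (A : DivisorClasses X.toSpecialFibre) (k f : ℕ) (h : InRange A k (f + 1)) :
    IsOuter (X.N k) (fun a => X.W k ((k : ℤ) + a)) f := by
  have hr : ∀ e, f + 1 ≤ e → InRange A k e := by
    intro e he
    rcases h with h | h | ⟨h1, h2⟩ | ⟨h1, h2, h3⟩
    · exact Or.inl (by omega)
    · exact Or.inr (Or.inl (by omega))
    · exact Or.inr (Or.inr (Or.inl ⟨h1, by omega⟩))
    · exact Or.inr (Or.inr (Or.inr ⟨h1, by omega, h3⟩))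
  exact isOuter_of X k f (fun e he => (good_of_range X A k e (by omega) (hr e he)).1)
    (fun e he => (good_of_range X A k e (by omega) (hr e he)).2)

end generic

end Pool.Agent.N184.KL
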